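import Pool.Agent.H14R3.Campbell.Mob

set_option autoImplicit false

namespace Pool.Agent.H14R3.Campbell

open Complex Metric Set Filter Topology ComplexConjugate

/-- Two-point distortion for locally univalent functions of bounded order. -/
lemma distortion {F : ℂ → ℂ} {α : ℝ} (hF : DifferentiableOn ℂ F (ball 0 1))
    (hF' : ∀ z ∈ ball (0:ℂ) 1, deriv F z ≠ 0)
    (hord : ∀ z ∈ ball (0:ℂ) 1,
      ‖-conj z + (1 - (‖z‖ : ℂ) ^ 2) * deriv (deriv F) z / (2 * deriv F z)‖ ≤ α)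
    {z w : ℂ} (hz : ‖z‖ < 1) (hw : ‖w‖ < 1) {d : ℝ}
    (hd : d = ‖w - z‖ / ‖1 - conj z * w‖) :
    ‖deriv F w‖ * (1 - ‖w‖ ^ 2) ≤
      ‖deriv F z‖ * (1 - ‖z‖ ^ 2) * ((1 + d) / (1 - d)) ^ α := by
  have hd' : d = ‖mob z w‖ := by rw [hd, mob, norm_div]
  have hd0 : 0 ≤ d := hd' ▸ norm_nonneg _
  have hd1 : d < 1 := hd' ▸ norm_mob_lt hz hw
  rcases eq_or_lt_of_le hd0 with h0 | hdpos
  · have h1 : mob z w = 0 := by rw [← norm_eq_zero, ← hd', ← h0]
    have h2 : w = z := by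
      have := mob_neg_mob hz hw.le
      rw [h1, mob_zero, neg_neg] at this
      exact this.symm
    rw [← h0, h2]
    simp
  -- the hyperbolic segment
  obtain ⟨κ, hκ⟩ : ∃ κ : ℂ, κ = mob z w / d := ⟨_, rfl⟩
  have hκ1 : ‖κ‖ = 1 := by
    rw [hκ, norm_div, Complex.norm_real, Real.norm_eq_abs, abs_of_pos hdpos, ← hd',
      div_self hdpos.ne']
  have hκd : κ * d = mob z w := by
    rw [hκ, div_mul_cancel₀]
    exact_mod_cast hdpos.ne'
  have hnz : ‖-z‖ < 1 := by rwa [norm_neg]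
  set γ : ℝ → ℂ := fun t => mob (-z) (κ * t) with hγ
  have hnorm : ∀ t : ℝ, 0 ≤ t → ‖κ * (t : ℂ)‖ = t := by
    intro t ht
    rw [norm_mul, hκ1, one_mul, Complex.norm_real, Real.norm_eq_abs, abs_of_nonneg ht]
  have hγ0 : γ 0 = z := by simp [hγ, mob_zero]
  have hγd : γ d = w := by
    simp only [hγ, hκd]
    have := mob_neg_mob hz hw.le
    exact this
  have hγm : ∀ t : ℝ, 0 ≤ t → t < 1 → ‖γ t‖ < 1 := by
    intro t h0 h1
    exact norm_mob_lt hnz (by rw [hnorm t h0]; exact h1)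
  -- derivative of γ
  have hγ' : ∀ t : ℝ, 0 ≤ t → t < 1 → ∃ g : ℂ, HasDerivAt γ g t ∧
      (1 - t ^ 2) * ‖g‖ = 1 - ‖γ t‖ ^ 2 := by
    intro t h0 h1
    have hk : ‖κ * (t : ℂ)‖ ≤ 1 := by rw [hnorm t h0]; exact h1.le
    have e1 : HasDerivAt (mob (-z)) (deriv (mob (-z)) (κ * t)) (κ * (t:ℂ)) :=
      (differentiableAt_mob hnz hk).hasDerivAt
    have e2 : HasDerivAt (fun t : ℝ => κ * (t : ℂ)) κ t := by
      have := (Complex.ofRealCLM.hasDerivAt (x := t)).const_mul κ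
      simpa using this
    have e3 := HasDerivAt.comp (h₂ := mob (-z)) (h := fun t : ℝ => κ * (t : ℂ)) t e1 e2
    refine ⟨deriv (mob (-z)) (κ * t) * κ, e3, ?_⟩
    have := schwarz_mob hnz hk
    rw [hnorm t h0] at this
    rw [norm_mul, hκ1, mul_one]
    exact this
  have hdF : DifferentiableOn ℂ (deriv F) (ball 0 1) := hF.deriv isOpen_ball
  -- the function v
  set v : ℝ → ℝ := fun t => Real.log (‖deriv F (γ t)‖ ^ 2) + 2 * Real.log (1 - ‖γ t‖ ^ 2) -
    2 * α * (Real.log (1 + t) - Real.log (1 - t)) with hv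
  have hder : ∀ t : ℝ, 0 ≤ t → t < 1 → ∃ g : ℝ, HasDerivAt v g t ∧ g ≤ 0 := by
    intro t h0 h1
    obtain ⟨g, hg, hgn⟩ := hγ' t h0 h1
    have hm := hγm t h0 h1
    have hmem : γ t ∈ ball (0:ℂ) 1 := mem_ball_zero_iff.2 hm
    have hne := hF' _ hmem
    obtain ⟨h, hh⟩ : ∃ h, h = deriv F (γ t) := ⟨_, rfl⟩
    obtain ⟨k, hk⟩ : ∃ k, k = deriv (deriv F) (γ t) := ⟨_, rfl⟩
    have hhne : h ≠ 0 := hh ▸ hne
    have d1 : HasDerivAt (fun t : ℝ => deriv F (γ t)) (k * g) t := by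
      have : HasDerivAt (deriv F) k (γ t) := by
        rw [hk]
        exact (hdF.differentiableAt (isOpen_ball.mem_nhds hmem)).hasDerivAt
      exact this.comp t hg
    have d2 : HasDerivAt (fun t : ℝ => ‖deriv F (γ t)‖ ^ 2) (2 * (conj h * (k * g)).re) t := by
      have := d1.norm_sq
      rw [← hh] at this
      rw [Complex.inner, mul_comm (k * g)] at this
      exact this
    have hhpos : 0 < ‖h‖ ^ 2 := by
      have := norm_pos_iff.2 hhne
      positivity
    have d3 := d2.log (by rw [← hh]; exact hhpos.ne')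
    have d4 : HasDerivAt (fun t : ℝ => 1 - ‖γ t‖ ^ 2) (-(2 * (conj (γ t) * g).re)) t := by
      have := (hg.norm_sq).const_sub 1
      rw [Complex.inner, mul_comm g] at this
      exact this
    have hpos : 0 < 1 - ‖γ t‖ ^ 2 := by nlinarith [norm_nonneg (γ t)]
    have d5 := (d4.log hpos.ne').const_mul 2
    have d6 : HasDerivAt (fun t : ℝ => Real.log (1 + t)) (1 / (1 + t)) t := by
      have : HasDerivAt (fun t : ℝ => 1 + t) 1 t := (hasDerivAt_id t).const_add 1
      exact this.log (by linarith)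
    have d7 : HasDerivAt (fun t : ℝ => Real.log (1 - t)) (-1 / (1 - t)) t := by
      have : HasDerivAt (fun t : ℝ => 1 - t) (-1) t := (hasDerivAt_id t).const_sub 1
      exact this.log (by linarith)
    have d8 := (d3.add d5).sub ((d6.sub d7).const_mul (2 * α))
    refine ⟨_, d8, ?_⟩
    rw [← hh]
    have h1t : 0 < 1 - t := by linarith
    have h1t' : 0 < 1 + t := by linarith
    have h1t2 : 0 < 1 - t ^ 2 := by nlinarith
    -- bound
    have hb := hord _ hmem
    rw [← hh, ← hk] at hb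
    have e1 : 2 * (conj h * (k * g)).re / ‖h‖ ^ 2 + 2 * (-(2 * (conj (γ t) * g).re) / (1 - ‖γ t‖ ^ 2)) =
        (4 / (1 - ‖γ t‖ ^ 2)) *
          (g * (-conj (γ t) + (1 - (‖γ t‖ : ℂ) ^ 2) * k / (2 * h))).re := by
      have e2 : (conj h * (k * g)).re / ‖h‖ ^ 2 = (k * g / h).re := by
        have : k * g / h = (conj h * (k * g)) / ((‖h‖ ^ 2 : ℝ) : ℂ) := by
          have h3 : ((‖h‖ ^ 2 : ℝ) : ℂ) = h * conj h := by
            rw [Complex.mul_conj, Complex.normSq_eq_norm_sq]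
          rw [h3]
          have h4 : conj h ≠ 0 := (map_ne_zero _).2 hhne
          field_simp
        rw [this, Complex.div_ofReal_re]
      have e3 : (g * (-conj (γ t) + (1 - (‖γ t‖ : ℂ) ^ 2) * k / (2 * h))).re =
          -(conj (γ t) * g).re + (1 - ‖γ t‖ ^ 2) / 2 * (k * g / h).re := by
        have : g * (-conj (γ t) + (1 - (‖γ t‖ : ℂ) ^ 2) * k / (2 * h)) =
            -(conj (γ t) * g) + (((1 - ‖γ t‖ ^ 2) / 2 : ℝ) : ℂ) * (k * g / h) := by
          push_cast
          field_simp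
        rw [this, Complex.add_re, Complex.neg_re, Complex.re_ofReal_mul]
      rw [e3, mul_div_assoc, e2]
      field_simp
      ring
    have e4 : (g * (-conj (γ t) + (1 - (‖γ t‖ : ℂ) ^ 2) * k / (2 * h))).re ≤ ‖g‖ * α := by
      refine (Complex.re_le_norm _).trans ?_
      rw [norm_mul]
      exact mul_le_mul_of_nonneg_left hb (norm_nonneg _)
    have e5 : ‖g‖ = (1 - ‖γ t‖ ^ 2) / (1 - t ^ 2) := by
      rw [eq_div_iff h1t2.ne', ← hgn]; ring
    have e6 : 2 * (conj h * (k * g)).re / ‖h‖ ^ 2 + 2 * (-(2 * (conj (γ t) * g).re) / (1 - ‖γ t‖ ^ 2)) ≤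
        4 * α / (1 - t ^ 2) := by
      rw [e1]
      calc (4 / (1 - ‖γ t‖ ^ 2)) * (g * (-conj (γ t) + (1 - (‖γ t‖ : ℂ) ^ 2) * k / (2 * h))).re
          ≤ (4 / (1 - ‖γ t‖ ^ 2)) * (‖g‖ * α) :=
            mul_le_mul_of_nonneg_left e4 (by positivity)
        _ = 4 * α / (1 - t ^ 2) := by
            rw [e5]; field_simp
    have e7 : 2 * α * (1 / (1 + t) - -1 / (1 - t)) = 4 * α / (1 - t ^ 2) := by
      have : (1 - t ^ 2) = (1 + t) * (1 - t) := by ring
      rw [this]; field_simp; ring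
    rw [e7]
    linarith
  -- monotonicity
  have hanti : AntitoneOn v (Icc 0 d) := by
    apply antitoneOn_of_deriv_nonpos (convex_Icc 0 d)
    · intro t ht
      obtain ⟨g, hg, _⟩ := hder t ht.1 (lt_of_le_of_lt ht.2 hd1)
      exact hg.continuousAt.continuousWithinAt
    · intro t ht
      rw [interior_Icc] at ht
      obtain ⟨g, hg, _⟩ := hder t ht.1.le (ht.2.trans hd1)
      exact hg.differentiableAt.differentiableWithinAt
    · intro t ht
      rw [interior_Icc] at ht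
      obtain ⟨g, hg, hg0⟩ := hder t ht.1.le (ht.2.trans hd1)
      rw [hg.deriv]; exact hg0
  have hfin := hanti (left_mem_Icc.2 hd0) (right_mem_Icc.2 hd0) hd0
  simp only [hv, hγ0, hγd, add_zero, sub_zero, Real.log_one, sub_self, mul_zero] at hfin
  have hWpos : 0 < ‖deriv F w‖ := norm_pos_iff.2 (hF' w (mem_ball_zero_iff.2 hw))
  have hZpos : 0 < ‖deriv F z‖ := norm_pos_iff.2 (hF' z (mem_ball_zero_iff.2 hz))
  have hw2 : 0 < 1 - ‖w‖ ^ 2 := by nlinarith [norm_nonneg w]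
  have hz2 : 0 < 1 - ‖z‖ ^ 2 := by nlinarith [norm_nonneg z]
  have h1d : 0 < 1 - d := by linarith
  have h1d' : 0 < 1 + d := by linarith
  have hq : 0 < (1 + d) / (1 - d) := div_pos h1d' h1d
  rw [← Real.log_le_log_iff (by positivity) (by positivity),
    Real.log_mul hWpos.ne' hw2.ne', Real.log_mul (by positivity) (by positivity),
    Real.log_mul hZpos.ne' hz2.ne', Real.log_rpow hq, Real.log_div h1d'.ne' h1d.ne']
  rw [Real.log_pow, Real.log_pow] at hfin
  push_cast at hfin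
  linarith

end Pool.Agent.H14R3.Campbell
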