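import Mathlib

set_option autoImplicit false

namespace Pool.Agent.H14R3.Campbell

open Complex

lemma nsq (z : ℂ) : ‖z‖ ^ 2 = z.re ^ 2 + z.im ^ 2 := by
  rw [← Complex.normSq_eq_norm_sq, Complex.normSq_apply]; ring

lemma sqle {a b : ℝ} (hb : 0 ≤ b) (h : a ^ 2 ≤ b ^ 2) : a ≤ b :=
  (abs_le_of_sq_le_sq' h hb).2

/-- Squared form of the basic two-point estimate. -/
lemma poly_i {r t p : ℝ} (ht0 : 0 ≤ t) (htr : t ≤ r) (hr1 : r < 1) (hp1 : (1 - t) ^ 2 ≤ p)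
    (hp2 : p ≤ (1 + t) ^ 2) :
    p * ((1 - r ^ 2) * (1 - r ^ 2 * t ^ 2) + r ^ 2 * p) ≤
      (r * p + (1 + r) ^ 2 * (1 - t) ^ 2) ^ 2 := by
  have hr0 : 0 ≤ r := ht0.trans htr
  have ht1 : t < 1 := lt_of_le_of_lt htr hr1
  have hp0 : 0 ≤ p := le_trans (sq_nonneg _) hp1
  -- the one variable inequality
  have k1 : (1 - r) * (1 + t) ^ 2 * (1 - r ^ 2 * t ^ 2) ≤
      (1 + r) ^ 3 * (1 - t) ^ 4 + 2 * r * (1 + r) * (1 - t ^ 2) ^ 2 := by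
    have e1 : (1 - r) * (1 + t) ^ 2 * (1 - r ^ 2 * t ^ 2) ≤
        (1 - t) * (1 + t) ^ 2 * (1 - t ^ 2 * t ^ 2) := by
      have h1 : 1 - r ≤ 1 - t := by linarith
      have h2 : 1 - r ^ 2 * t ^ 2 ≤ 1 - t ^ 2 * t ^ 2 := by
        have : t ^ 2 ≤ r ^ 2 := pow_le_pow_left₀ ht0 htr 2
        have := mul_le_mul_of_nonneg_right this (sq_nonneg t)
        linarith
      have h3 : 0 ≤ 1 - r ^ 2 * t ^ 2 := by
        have h5 : r * t ≤ 1 := by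
          calc r * t ≤ 1 * 1 := mul_le_mul hr1.le (by linarith) ht0 zero_le_one
            _ = 1 := one_mul 1
        have h6 : (r * t) ^ 2 ≤ 1 := pow_le_one₀ (mul_nonneg hr0 ht0) h5
        rw [mul_pow] at h6
        linarith
      have h4 : 0 ≤ 1 - t := by linarith
      have h6 : 0 ≤ (1 + t) ^ 2 := sq_nonneg _
      calc (1 - r) * (1 + t) ^ 2 * (1 - r ^ 2 * t ^ 2)
          ≤ (1 - t) * (1 + t) ^ 2 * (1 - r ^ 2 * t ^ 2) :=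
            mul_le_mul_of_nonneg_right (mul_le_mul_of_nonneg_right h1 h6) h3
        _ ≤ _ := mul_le_mul_of_nonneg_left h2 (mul_nonneg h4 h6)
    have e2 : (1 + t) ^ 3 * (1 - t) ^ 4 ≤ (1 + r) ^ 3 * (1 - t) ^ 4 :=
      mul_le_mul_of_nonneg_right (pow_le_pow_left₀ (by linarith) (by linarith) 3) (by positivity)
    have e3 : 2 * t * (1 + t) * (1 - t ^ 2) ^ 2 ≤ 2 * r * (1 + r) * (1 - t ^ 2) ^ 2 := by
      apply mul_le_mul_of_nonneg_right _ (sq_nonneg _)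
      nlinarith
    have e4 : (1 - t) * (1 + t) ^ 2 * (1 - t ^ 2 * t ^ 2) =
        (1 + t) ^ 3 * (1 - t) ^ 4 + 2 * t * (1 + t) * (1 - t ^ 2) ^ 2 := by ring
    linarith
  have k2 : (1 + t) ^ 2 * ((1 - r ^ 2) * (1 - r ^ 2 * t ^ 2) - 2 * r * (1 + r) ^ 2 * (1 - t) ^ 2) ≤
      (1 + r) ^ 4 * (1 - t) ^ 4 := by
    have h := mul_le_mul_of_nonneg_left k1 (show (0:ℝ) ≤ 1 + r by linarith)
    have e : (1 + t) ^ 2 * ((1 - r ^ 2) * (1 - r ^ 2 * t ^ 2) - 2 * r * (1 + r) ^ 2 * (1 - t) ^ 2) =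
      (1 + r) * ((1 - r) * (1 + t) ^ 2 * (1 - r ^ 2 * t ^ 2)) -
        (1 + r) * (2 * r * (1 + r) * (1 - t ^ 2) ^ 2) := by ring
    rw [e]
    have e' : (1 + r) ^ 4 * (1 - t) ^ 4 = (1 + r) * ((1 + r) ^ 3 * (1 - t) ^ 4 +
      2 * r * (1 + r) * (1 - t ^ 2) ^ 2) - (1 + r) * (2 * r * (1 + r) * (1 - t ^ 2) ^ 2) := by ring
    rw [e']
    linarith
  have k3 : p * ((1 - r ^ 2) * (1 - r ^ 2 * t ^ 2) - 2 * r * (1 + r) ^ 2 * (1 - t) ^ 2) ≤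
      (1 + r) ^ 4 * (1 - t) ^ 4 := by
    rcases le_total 0 ((1 - r ^ 2) * (1 - r ^ 2 * t ^ 2) - 2 * r * (1 + r) ^ 2 * (1 - t) ^ 2)
      with hc | hc
    · exact (mul_le_mul_of_nonneg_right hp2 hc).trans k2
    · exact (mul_nonpos_of_nonneg_of_nonpos hp0 hc).trans (by positivity)
  have e : (r * p + (1 + r) ^ 2 * (1 - t) ^ 2) ^ 2 -
      p * ((1 - r ^ 2) * (1 - r ^ 2 * t ^ 2) + r ^ 2 * p) =
      (1 + r) ^ 4 * (1 - t) ^ 4 -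
      p * ((1 - r ^ 2) * (1 - r ^ 2 * t ^ 2) - 2 * r * (1 + r) ^ 2 * (1 - t) ^ 2) := by ring
  linarith

lemma poly_ii {t q p y : ℝ} (ht0 : 0 ≤ t) (ht : 0 ≤ 1 - 4 * t + t ^ 2)
    (hy0 : 0 ≤ y) (hy1 : y ≤ 4 * t) (hq : q = (1 + t) ^ 2 - y) (hp : p = (1 - t) ^ 2 + y) :
    q ^ 3 * p ≤ ((1 + t) ^ 3 * (1 - t)) ^ 2 := by
  have hP : 0 ≤ (1 - t) ^ 2 := sq_nonneg _
  have hQ : 0 ≤ (1 + t) ^ 2 := sq_nonneg _
  have h3 : 0 ≤ 3 * (1 - t) ^ 2 - (1 + t) ^ 2 := by nlinarith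
  have h4 : 0 ≤ (1 + t) ^ 2 - (1 - t) ^ 2 - y := by nlinarith
  have key : ((1 + t) ^ 3 * (1 - t)) ^ 2 - q ^ 3 * p =
      y * (((1 + t) ^ 2) ^ 2 * (3 * (1 - t) ^ 2 - (1 + t) ^ 2) +
        3 * (1 + t) ^ 2 * y * ((1 + t) ^ 2 - (1 - t) ^ 2 - y) + y ^ 2 * ((1 - t) ^ 2 + y)) := by
    subst hq; subst hp; ring
  have : 0 ≤ y * (((1 + t) ^ 2) ^ 2 * (3 * (1 - t) ^ 2 - (1 + t) ^ 2) +
        3 * (1 + t) ^ 2 * y * ((1 + t) ^ 2 - (1 - t) ^ 2 - y) + y ^ 2 * ((1 - t) ^ 2 + y)) := by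
    positivity
  linarith

lemma normM0 (s : ℂ) (c : ℝ) : ‖1 - (c : ℂ) * s‖ ^ 2 = 1 - 2 * c * s.re + c ^ 2 * ‖s‖ ^ 2 := by
  have e1 : (1 - (c : ℂ) * s).re = 1 - c * s.re := by
    rw [Complex.sub_re, Complex.re_ofReal_mul, Complex.one_re]
  have e2 : (1 - (c : ℂ) * s).im = - (c * s.im) := by
    rw [Complex.sub_im, Complex.im_ofReal_mul, Complex.one_im]; ring
  rw [nsq, nsq, e1, e2]; ring

/-- The three building blocks, in terms of real quantities. -/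
lemma blocks {r t P Q M0 y : ℝ} (hr1 : r < 1) (hr : 0 ≤ 1 - 4 * r + r ^ 2)
    (ht0 : 0 ≤ t) (htr : t ≤ r) (hP0 : 0 ≤ P) (hQ0 : 0 ≤ Q) (hM00 : 0 ≤ M0)
    (hMM0 : M0 ^ 2 = (1 - r ^ 2) * (1 - r ^ 2 * t ^ 2) + r ^ 2 * P ^ 2)
    (hy0 : 0 ≤ y) (hy1 : y ≤ 4 * t)
    (hpy : P ^ 2 = (1 - t) ^ 2 + y) (hqy : Q ^ 2 = (1 + t) ^ 2 - y) :
    (P * M0 - r * P ^ 2 ≤ (1 + r) ^ 2 * (1 - t) ^ 2) ∧
    (Q ^ 2 * ((1 - r ^ 2) * (P * Q)) ≤ (1 + r) ^ 2 * (1 - t ^ 2) ^ 2) ∧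
    ((1 + t) ^ 2 * ((1 - r ^ 2) * (P * Q)) + 2 * Q ^ 2 * (P * M0 - r * P ^ 2) ≤
      3 * ((1 + r) ^ 2 * (1 - t ^ 2) ^ 2)) ∧
    (0 ≤ P * M0 - r * P ^ 2) := by
  have hr0 : 0 ≤ r := ht0.trans htr
  have hr13 : r ≤ 1 / 3 := by
    by_contra h
    push Not at h
    nlinarith
  have ht4 : 0 ≤ 1 - 4 * t + t ^ 2 := by nlinarith
  have htle : t ≤ 1 / 3 := htr.trans hr13
  -- (i)
  have I1 : P * M0 ≤ r * P ^ 2 + (1 + r) ^ 2 * (1 - t) ^ 2 := by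
    apply sqle (by positivity)
    rw [mul_pow, hMM0]
    exact poly_i ht0 htr hr1 (by rw [hpy]; linarith) (by rw [hpy]; nlinarith)
  -- ratio
  have hrat : (1 - r) * (1 + t) ≤ (1 + r) * (1 - t) := by nlinarith
  have h1r2 : 0 ≤ 1 - r ^ 2 := by nlinarith
  have h1t : 0 ≤ 1 - t := by linarith
  -- (ii')
  have I2' : Q ^ 2 * (P * Q) ≤ (1 + t) ^ 3 * (1 - t) := by
    apply sqle (mul_nonneg (by positivity) h1t)
    have h := poly_ii ht0 ht4 hy0 hy1 hqy hpy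
    have e : (Q ^ 2 * (P * Q)) ^ 2 = (Q ^ 2) ^ 3 * P ^ 2 := by ring
    rw [e]
    exact h
  have I2 : Q ^ 2 * ((1 - r ^ 2) * (P * Q)) ≤ (1 + r) ^ 2 * (1 - t ^ 2) ^ 2 := by
    have h1 := mul_le_mul_of_nonneg_left I2' h1r2
    have h2 := mul_le_mul_of_nonneg_left hrat
      (show (0:ℝ) ≤ (1 + r) * (1 + t) ^ 2 * (1 - t) from
        mul_nonneg (by positivity) h1t)
    have e1 : Q ^ 2 * ((1 - r ^ 2) * (P * Q)) = (1 - r ^ 2) * (Q ^ 2 * (P * Q)) := by ring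
    have e2 : (1 - r ^ 2) * ((1 + t) ^ 3 * (1 - t)) =
      (1 + r) * (1 + t) ^ 2 * (1 - t) * ((1 - r) * (1 + t)) := by ring
    have e3 : (1 + r) * (1 + t) ^ 2 * (1 - t) * ((1 + r) * (1 - t)) =
      (1 + r) ^ 2 * (1 - t ^ 2) ^ 2 := by ring
    rw [e1, ← e3]
    exact h1.trans (e2 ▸ h2)
  -- (iii')
  have I3' : (1 - t ^ 2) * (P * Q) ≤ (1 - t ^ 2) ^ 2 + 2 * t * y := by
    apply sqle (by positivity)
    have e : ((1 - t ^ 2) * (P * Q)) ^ 2 = (1 - t ^ 2) ^ 2 * (P ^ 2 * Q ^ 2) := by ring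
    rw [e, hpy, hqy]
    have e2 : ((1 - t ^ 2) ^ 2 + 2 * t * y) ^ 2 -
        (1 - t ^ 2) ^ 2 * (((1 - t) ^ 2 + y) * ((1 + t) ^ 2 - y)) =
        (1 - t ^ 2) ^ 2 * y ^ 2 + 4 * t ^ 2 * y ^ 2 := by ring
    have e3 : 0 ≤ (1 - t ^ 2) ^ 2 * y ^ 2 + 4 * t ^ 2 * y ^ 2 := by positivity
    linarith
  have hPQ0 : 0 ≤ P * Q := mul_nonneg hP0 hQ0
  have I3 : (1 + t) ^ 2 * ((1 - r ^ 2) * (P * Q)) + 2 * Q ^ 2 * (P * M0 - r * P ^ 2) ≤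
      3 * ((1 + r) ^ 2 * (1 - t ^ 2) ^ 2) := by
    have h1 : (1 + t) ^ 2 * ((1 - r ^ 2) * (P * Q)) ≤
        (1 + r) ^ 2 * ((1 - t ^ 2) * (P * Q)) := by
      have h := mul_le_mul_of_nonneg_right hrat
        (show (0:ℝ) ≤ (1 + r) * (1 + t) * (P * Q) from by positivity)
      have e1 : (1 + t) ^ 2 * ((1 - r ^ 2) * (P * Q)) =
        (1 - r) * (1 + t) * ((1 + r) * (1 + t) * (P * Q)) := by ring
      have e2 : (1 + r) ^ 2 * ((1 - t ^ 2) * (P * Q)) =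
        (1 + r) * (1 - t) * ((1 + r) * (1 + t) * (P * Q)) := by ring
      rw [e1, e2]
      exact h
    have h2 : 2 * Q ^ 2 * (P * M0 - r * P ^ 2) ≤ 2 * Q ^ 2 * ((1 + r) ^ 2 * (1 - t) ^ 2) :=
      mul_le_mul_of_nonneg_left (by linarith) (by positivity)
    have h3 : (1 + r) ^ 2 * ((1 - t ^ 2) * (P * Q)) ≤
        (1 + r) ^ 2 * ((1 - t ^ 2) ^ 2 + 2 * t * y) :=
      mul_le_mul_of_nonneg_left I3' (sq_nonneg _)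
    have h4 : (1 - t ^ 2) ^ 2 + 2 * t * y + 2 * Q ^ 2 * (1 - t) ^ 2 ≤ 3 * (1 - t ^ 2) ^ 2 := by
      rw [hqy]
      have h6 : 0 ≤ y * ((1 - t) ^ 2 - t) := mul_nonneg hy0 (by nlinarith)
      have e : 3 * (1 - t ^ 2) ^ 2 - ((1 - t ^ 2) ^ 2 + 2 * t * y +
        2 * ((1 + t) ^ 2 - y) * (1 - t) ^ 2) = 2 * (y * ((1 - t) ^ 2 - t)) := by ring
      linarith
    have h5 := mul_le_mul_of_nonneg_left h4 (sq_nonneg (1 + r))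
    have e5 : (1 + r) ^ 2 * ((1 - t ^ 2) ^ 2 + 2 * t * y + 2 * Q ^ 2 * (1 - t) ^ 2) =
      (1 + r) ^ 2 * ((1 - t ^ 2) ^ 2 + 2 * t * y) + 2 * Q ^ 2 * ((1 + r) ^ 2 * (1 - t) ^ 2) := by ring
    have e6 : (1 + r) ^ 2 * (3 * (1 - t ^ 2) ^ 2) = 3 * ((1 + r) ^ 2 * (1 - t ^ 2) ^ 2) := by ring
    rw [e5, e6] at h5
    linarith
  -- nonnegativity
  have hE0 : 0 ≤ P * M0 - r * P ^ 2 := by
    have h : r * P ≤ M0 := by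
      apply sqle hM00
      rw [hMM0]
      have h1 : 0 ≤ (1 - r ^ 2) * (1 - r ^ 2 * t ^ 2) := by
        apply mul_nonneg h1r2
        have h5 : r * t ≤ 1 := by
          calc r * t ≤ 1 * 1 := mul_le_mul hr1.le (by linarith) ht0 zero_le_one
            _ = 1 := one_mul 1
        have h6 : (r * t) ^ 2 ≤ 1 := pow_le_one₀ (mul_nonneg hr0 ht0) h5
        rw [mul_pow] at h6
        linarith
      rw [mul_pow]
      linarith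
    have := mul_le_mul_of_nonneg_left h hP0
    linarith [show P * (r * P) = r * P ^ 2 by ring]
  exact ⟨by linarith, I2, I3, hE0⟩

lemma assemble {r a t P Q M0 M B x : ℝ} (ha0 : 0 ≤ a) (ha1 : a ≤ 1)
    (hP0 : 0 ≤ P) (hQ0 : 0 ≤ Q) (hB0 : 0 ≤ B) (h1r2 : 0 ≤ 1 - r ^ 2)
    (hQQ : Q ^ 2 = 1 + t ^ 2 + 2 * x)
    (I1 : P * M0 - r * P ^ 2 ≤ (1 + r) ^ 2 * (1 - t) ^ 2)
    (I2 : Q ^ 2 * ((1 - r ^ 2) * (P * Q)) ≤ (1 + r) ^ 2 * (1 - t ^ 2) ^ 2)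
    (I3 : (1 + t) ^ 2 * ((1 - r ^ 2) * (P * Q)) + 2 * Q ^ 2 * (P * M0 - r * P ^ 2) ≤
      3 * ((1 + r) ^ 2 * (1 - t ^ 2) ^ 2))
    (hE0 : 0 ≤ P * M0 - r * P ^ 2)
    (hBle : B ≤ (1 - a) * (2 * t) + a * Q ^ 2)
    (hMle : M ≤ (1 - a) * M0 + a * ((1 - r ^ 2) * Q)) :
    ((1 + t ^ 2 + 2 * a * x) + B) * (P * (M - r * ((1 - a) * P))) ≤
      (1 + r) ^ 2 * (1 + a) * (1 - t ^ 2) ^ 2 := by
  have hE1 : 0 ≤ (1 - r ^ 2) * (P * Q) := mul_nonneg h1r2 (mul_nonneg hP0 hQ0)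
  have hA : 1 + t ^ 2 + 2 * a * x = (1 - a) * (1 + t ^ 2) + a * Q ^ 2 := by rw [hQQ]; ring
  have h1a : 0 ≤ 1 - a := by linarith
  have hX : (1 + t ^ 2 + 2 * a * x) + B ≤ (1 - a) * (1 + t) ^ 2 + 2 * a * Q ^ 2 := by
    rw [hA]
    have e : (1 - a) * (1 + t) ^ 2 + 2 * a * Q ^ 2 =
      (1 - a) * (1 + t ^ 2) + a * Q ^ 2 + ((1 - a) * (2 * t) + a * Q ^ 2) := by ring
    rw [e]
    linarith
  have hX0 : 0 ≤ (1 + t ^ 2 + 2 * a * x) + B := by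
    rw [hA]; positivity
  have hY : P * (M - r * ((1 - a) * P)) ≤
      (1 - a) * (P * M0 - r * P ^ 2) + a * ((1 - r ^ 2) * (P * Q)) := by
    have h := mul_le_mul_of_nonneg_left hMle hP0
    have e : (1 - a) * (P * M0 - r * P ^ 2) + a * ((1 - r ^ 2) * (P * Q)) =
      P * ((1 - a) * M0 + a * ((1 - r ^ 2) * Q)) - P * (r * ((1 - a) * P)) := by ring
    rw [e, mul_sub]
    linarith
  have hY0 : 0 ≤ (1 - a) * (P * M0 - r * P ^ 2) + a * ((1 - r ^ 2) * (P * Q)) := by positivity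
  calc ((1 + t ^ 2 + 2 * a * x) + B) * (P * (M - r * ((1 - a) * P)))
      ≤ ((1 + t ^ 2 + 2 * a * x) + B) *
        ((1 - a) * (P * M0 - r * P ^ 2) + a * ((1 - r ^ 2) * (P * Q))) :=
        mul_le_mul_of_nonneg_left hY hX0
    _ ≤ ((1 - a) * (1 + t) ^ 2 + 2 * a * Q ^ 2) *
        ((1 - a) * (P * M0 - r * P ^ 2) + a * ((1 - r ^ 2) * (P * Q))) :=
        mul_le_mul_of_nonneg_right hX hY0
    _ = (1 - a) ^ 2 * ((1 + t) ^ 2 * (P * M0 - r * P ^ 2)) +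
        a * (1 - a) * ((1 + t) ^ 2 * ((1 - r ^ 2) * (P * Q)) + 2 * Q ^ 2 * (P * M0 - r * P ^ 2)) +
        2 * a ^ 2 * (Q ^ 2 * ((1 - r ^ 2) * (P * Q))) := by ring
    _ ≤ (1 - a) ^ 2 * ((1 + r) ^ 2 * (1 - t ^ 2) ^ 2) +
        a * (1 - a) * (3 * ((1 + r) ^ 2 * (1 - t ^ 2) ^ 2)) +
        2 * a ^ 2 * ((1 + r) ^ 2 * (1 - t ^ 2) ^ 2) := by
        have j1 : (1 + t) ^ 2 * (P * M0 - r * P ^ 2) ≤ (1 + r) ^ 2 * (1 - t ^ 2) ^ 2 := by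
          have h := mul_le_mul_of_nonneg_left I1 (sq_nonneg (1 + t))
          have e : (1 + t) ^ 2 * ((1 + r) ^ 2 * (1 - t) ^ 2) = (1 + r) ^ 2 * (1 - t ^ 2) ^ 2 := by
            ring
          rw [e] at h
          exact h
        have j2 := mul_le_mul_of_nonneg_left j1 (sq_nonneg (1 - a))
        have j3 := mul_le_mul_of_nonneg_left I3 (mul_nonneg ha0 h1a)
        have j4 := mul_le_mul_of_nonneg_left I2 (show (0:ℝ) ≤ 2 * a ^ 2 by positivity)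
        linarith
    _ = (1 + r) ^ 2 * (1 + a) * (1 - t ^ 2) ^ 2 := by ring

/-- The core inequality, free of `α`. -/
lemma core {r a : ℝ} {s : ℂ} (hr1 : r < 1) (hr : 0 ≤ 1 - 4 * r + r ^ 2)
    (ha0 : 0 ≤ a) (ha1 : a ≤ 1) (hs : ‖s‖ ≤ r) :
    ((1 + ‖s‖ ^ 2 + 2 * a * s.re) + ‖(a : ℂ) + 2 * s + a * s ^ 2‖) *
      (‖1 - s‖ * (‖1 + a * s - ((r ^ 2 : ℝ) : ℂ) * (a + s)‖ - r * ((1 - a) * ‖1 - s‖))) ≤
      (1 + r) ^ 2 * (1 + a) * (1 - ‖s‖ ^ 2) ^ 2 := by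
  have ht0 : 0 ≤ ‖s‖ := norm_nonneg _
  have hr0 : 0 ≤ r := ht0.trans hs
  have h1r2 : 0 ≤ 1 - r ^ 2 := by nlinarith
  have hPP : ‖1 - s‖ ^ 2 = 1 + ‖s‖ ^ 2 - 2 * s.re := by
    have := normM0 s 1
    simp only [Complex.ofReal_one, one_mul] at this
    rw [this]; ring
  have hQQ : ‖1 + s‖ ^ 2 = 1 + ‖s‖ ^ 2 + 2 * s.re := by
    have := normM0 s (-1)
    simp only [Complex.ofReal_neg, Complex.ofReal_one, neg_mul, one_mul, sub_neg_eq_add] at this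
    rw [this]; ring
  have hre1 : s.re ≤ ‖s‖ := Complex.re_le_norm s
  have hre2 : -‖s‖ ≤ s.re := (abs_le.1 (Complex.abs_re_le_norm s)).1
  have hMM0 : ‖1 - ((r ^ 2 : ℝ) : ℂ) * s‖ ^ 2 =
      (1 - r ^ 2) * (1 - r ^ 2 * ‖s‖ ^ 2) + r ^ 2 * ‖1 - s‖ ^ 2 := by
    rw [hPP, normM0]; ring
  have hBle : ‖(a : ℂ) + 2 * s + a * s ^ 2‖ ≤ (1 - a) * (2 * ‖s‖) + a * ‖1 + s‖ ^ 2 := by
    have e : (a : ℂ) + 2 * s + a * s ^ 2 = ((1 - a : ℝ) : ℂ) * (2 * s) + (a : ℂ) * (1 + s) ^ 2 := by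
      push_cast; ring
    rw [e]
    refine (norm_add_le _ _).trans ?_
    rw [norm_mul, norm_mul, norm_mul, norm_pow, Complex.norm_real, Complex.norm_real,
      Real.norm_eq_abs, Real.norm_eq_abs, abs_of_nonneg (by linarith : (0:ℝ) ≤ 1 - a),
      abs_of_nonneg ha0]
    simp
  have hMle : ‖1 + a * s - ((r ^ 2 : ℝ) : ℂ) * (a + s)‖ ≤
      (1 - a) * ‖1 - ((r ^ 2 : ℝ) : ℂ) * s‖ + a * ((1 - r ^ 2) * ‖1 + s‖) := by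
    have e : 1 + (a : ℂ) * s - ((r ^ 2 : ℝ) : ℂ) * (a + s) =
        ((1 - a : ℝ) : ℂ) * (1 - ((r ^ 2 : ℝ) : ℂ) * s) +
          (a : ℂ) * (((1 - r ^ 2 : ℝ) : ℂ) * (1 + s)) := by
      push_cast; ring
    rw [e]
    refine (norm_add_le _ _).trans ?_
    rw [norm_mul, norm_mul, norm_mul, Complex.norm_real, Complex.norm_real, Complex.norm_real,
      Real.norm_eq_abs, Real.norm_eq_abs, Real.norm_eq_abs,
      abs_of_nonneg (by linarith : (0:ℝ) ≤ 1 - a),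
      abs_of_nonneg ha0, abs_of_nonneg h1r2]
  obtain ⟨I1, I2, I3, hE0⟩ := blocks (y := 2 * ‖s‖ - 2 * s.re) hr1 hr ht0 hs (norm_nonneg (1 - s))
    (norm_nonneg (1 + s)) (norm_nonneg (1 - ((r ^ 2 : ℝ) : ℂ) * s)) hMM0 (by linarith) (by linarith)
    (by rw [hPP]; ring) (by rw [hQQ]; ring)
  exact assemble ha0 ha1 (norm_nonneg _) (norm_nonneg _) (norm_nonneg _) h1r2 hQQ I1 I2 I3 hE0
    hBle hMle

end Pool.Agent.H14R3.Campbell
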