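import Pool.Agent.H14R3.Campbell.Elem

set_option autoImplicit false

namespace Pool.Agent.H14R3.Campbell

open Complex

lemma re_as (a : ℝ) (s : ℂ) : (1 + (a : ℂ) * s).re = 1 + a * s.re := by
  rw [Complex.add_re, Complex.re_ofReal_mul, Complex.one_re]

lemma im_as (a : ℝ) (s : ℂ) : (1 + (a : ℂ) * s).im = a * s.im := by
  rw [Complex.add_im, Complex.im_ofReal_mul, Complex.one_im]; ring

lemma nsq_one_add (a : ℝ) (s : ℂ) : ‖1 + (a : ℂ) * s‖ ^ 2 = 1 + 2 * a * s.re + a ^ 2 * ‖s‖ ^ 2 := by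
  rw [nsq, nsq, re_as, im_as]; ring

lemma nsq_add (a : ℝ) (s : ℂ) : ‖(a : ℂ) + s‖ ^ 2 = a ^ 2 + 2 * a * s.re + ‖s‖ ^ 2 := by
  rw [nsq, nsq, Complex.add_re, Complex.add_im, Complex.ofReal_re, Complex.ofReal_im]; ring

lemma nsq_one_sub (s : ℂ) : ‖1 - s‖ ^ 2 = 1 - 2 * s.re + ‖s‖ ^ 2 := by
  rw [nsq, nsq, Complex.sub_re, Complex.sub_im, Complex.one_re, Complex.one_im]; ring

lemma nsq_M (a c : ℝ) (s : ℂ) : ‖1 + a * s - (c : ℂ) * (a + s)‖ ^ 2 =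
    (1 + 2 * a * s.re + a ^ 2 * ‖s‖ ^ 2) - 2 * c * (a + s.re + a ^ 2 * s.re + a * ‖s‖ ^ 2) +
      c ^ 2 * (a ^ 2 + 2 * a * s.re + ‖s‖ ^ 2) := by
  have e1 : (1 + a * s - (c : ℂ) * (a + s)).re = 1 + a * s.re - c * (a + s.re) := by
    rw [Complex.sub_re, re_as, Complex.re_ofReal_mul, Complex.add_re, Complex.ofReal_re]
  have e2 : (1 + a * s - (c : ℂ) * (a + s)).im = a * s.im - c * s.im := by
    rw [Complex.sub_im, im_as, Complex.im_ofReal_mul, Complex.add_im, Complex.ofReal_im, zero_add]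
  rw [nsq, nsq, e1, e2]; ring

lemma nsq_B (a : ℝ) (s : ℂ) : ‖(a : ℂ) + 2 * s + a * s ^ 2‖ ^ 2 =
    (1 + ‖s‖ ^ 2 + 2 * a * s.re) ^ 2 - (1 - a ^ 2) * (1 - ‖s‖ ^ 2) ^ 2 := by
  have e1 : ((a : ℂ) + 2 * s + a * s ^ 2).re = a + 2 * s.re + a * (s.re ^ 2 - s.im ^ 2) := by
    rw [Complex.add_re, Complex.add_re, Complex.re_ofReal_mul, Complex.ofReal_re, sq s,
      Complex.mul_re, Complex.mul_re, Complex.re_ofNat, Complex.im_ofNat]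
    ring
  have e2 : ((a : ℂ) + 2 * s + a * s ^ 2).im = 2 * s.im + a * (2 * s.re * s.im) := by
    rw [Complex.add_im, Complex.add_im, Complex.im_ofReal_mul, Complex.ofReal_im, sq s,
      Complex.mul_im, Complex.mul_im, Complex.re_ofNat, Complex.im_ofNat]
    ring
  rw [nsq, e1, e2, nsq s]; ring

lemma aux1 {a t x : ℝ} (ha0 : 0 ≤ a) (ha1 : a ≤ 1) (ht0 : 0 ≤ t) (ht1 : t < 1) (hx : -t ≤ x) :
    0 < 1 + 2 * a * x + a ^ 2 * t ^ 2 := by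
  have h := mul_le_mul_of_nonneg_left hx ha0
  have h3 : a * t < 1 := by
    calc a * t ≤ 1 * t := mul_le_mul_of_nonneg_right ha1 ht0
      _ < 1 := by linarith
  have h4 : 0 < (1 - a * t) ^ 2 := pow_pos (by linarith) 2
  have e : 1 + 2 * a * x + a ^ 2 * t ^ 2 = (1 - a * t) ^ 2 + 2 * (a * x - a * -t) := by ring
  rw [e]
  linarith

lemma aux2 {a t x : ℝ} (ha0 : 0 ≤ a) (ha1 : a ≤ 1) (ht0 : 0 ≤ t) (ht1 : t < 1) (hx : -t ≤ x) :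
    0 < 1 + t ^ 2 + 2 * a * x := by
  have h := mul_le_mul_of_nonneg_left hx ha0
  have h3 : a * t ≤ t := by
    calc a * t ≤ 1 * t := mul_le_mul_of_nonneg_right ha1 ht0
      _ = t := one_mul t
  have h4 : 0 < (1 - t) ^ 2 := pow_pos (by linarith) 2
  have e : 1 + t ^ 2 + 2 * a * x = (1 - t) ^ 2 + 2 * (t - a * t) + 2 * (a * x - a * -t) := by ring
  rw [e]
  linarith

lemma aux3 {r δ M D : ℝ} (hr : 0 < 1 - r ^ 2) (hD : 0 < D) (hM : 0 ≤ M) (hδ : 0 ≤ r * δ)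
    (h : D * (1 - r ^ 2) = M ^ 2 - (r * δ) ^ 2) : r * δ < M := by
  have h1 : 0 < D * (1 - r ^ 2) := mul_pos hD hr
  rw [h] at h1
  exact lt_of_pow_lt_pow_left₀ 2 hM (by linarith)

/-- The elementary inequality behind the majorization theorem. -/
lemma elem_final {r a α d : ℝ} {s : ℂ} (hr1 : r < 1) (hα1 : 1 ≤ α)
    (hα : 2 * α * r ≤ (1 - r) ^ 2) (ha0 : 0 ≤ a) (ha1 : a ≤ 1) (hs : ‖s‖ ≤ r)
    (hd : d = r * ((1 - a) * ‖1 - s‖) / ‖1 + a * s - ((r ^ 2 : ℝ) : ℂ) * (a + s)‖) :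
    0 < ‖1 + (a : ℂ) * s‖ ^ 2 - r ^ 2 * ‖(a : ℂ) + s‖ ^ 2 ∧ 0 ≤ d ∧ d < 1 ∧
    ((1 - r ^ 2) * ‖(a : ℂ) + 2 * s + a * s ^ 2‖ + (1 - a ^ 2) * (r ^ 2 - ‖s‖ ^ 2)) /
      (‖1 + (a : ℂ) * s‖ ^ 2 - r ^ 2 * ‖(a : ℂ) + s‖ ^ 2) * ((1 + d) / (1 - d)) ^ α ≤ 1 := by
  have ht0 : 0 ≤ ‖s‖ := norm_nonneg _
  have hr0 : 0 ≤ r := ht0.trans hs
  have hr4 : 0 ≤ 1 - 4 * r + r ^ 2 := by nlinarith
  have h1r2 : 0 < 1 - r ^ 2 := by nlinarith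
  have hts : ‖s‖ < 1 := lt_of_le_of_lt hs hr1
  have hτ : ‖s‖ ^ 2 ≤ r ^ 2 := pow_le_pow_left₀ ht0 hs 2
  have hcore := core hr1 hr4 ha0 ha1 hs
  have hre1 : s.re ≤ ‖s‖ := Complex.re_le_norm s
  have hre2 : -‖s‖ ≤ s.re := (abs_le.1 (Complex.abs_re_le_norm s)).1
  have hM2 := nsq_M a (r ^ 2) s
  have hB2 := nsq_B a s
  have hU := nsq_one_add a s
  have hV := nsq_add a s
  have hP := nsq_one_sub s
  obtain ⟨x, hx⟩ : ∃ x, x = s.re := ⟨_, rfl⟩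
  obtain ⟨t, ht⟩ : ∃ t, t = ‖s‖ := ⟨_, rfl⟩
  obtain ⟨P, hPd⟩ : ∃ P, P = ‖1 - s‖ := ⟨_, rfl⟩
  obtain ⟨M, hMd⟩ : ∃ M, M = ‖1 + a * s - ((r ^ 2 : ℝ) : ℂ) * (a + s)‖ := ⟨_, rfl⟩
  obtain ⟨B, hBd⟩ : ∃ B, B = ‖(a : ℂ) + 2 * s + a * s ^ 2‖ := ⟨_, rfl⟩
  obtain ⟨U, hUd⟩ : ∃ U, U = ‖1 + (a : ℂ) * s‖ := ⟨_, rfl⟩
  obtain ⟨V, hVd⟩ : ∃ V, V = ‖(a : ℂ) + s‖ := ⟨_, rfl⟩
  have hM0 : 0 ≤ M := hMd ▸ norm_nonneg _
  have hB0 : 0 ≤ B := hBd ▸ norm_nonneg _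
  have hP0 : 0 ≤ P := hPd ▸ norm_nonneg _
  rw [← hBd, ← hUd, ← hVd, ← ht]
  rw [← hMd, ← hPd] at hd
  rw [← ht, ← hx, ← hBd, ← hPd, ← hMd] at hcore
  rw [← hx, ← ht, ← hMd] at hM2
  rw [← hx, ← ht, ← hBd] at hB2
  rw [← hx, ← ht, ← hUd] at hU
  rw [← hx, ← ht, ← hVd] at hV
  rw [← hx, ← ht, ← hPd] at hP
  rw [← ht] at hts hτ ht0
  rw [← ht, ← hx] at hre1 hre2
  clear hx ht hPd hMd hBd hUd hVd hs
  obtain ⟨δ, hδ⟩ : ∃ δ, δ = (1 - a) * P := ⟨_, rfl⟩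
  have h1a : 0 ≤ 1 - a := by linarith
  have hδ0 : 0 ≤ δ := hδ ▸ mul_nonneg h1a hP0
  obtain ⟨Den, hDen⟩ : ∃ Den, Den = U ^ 2 - r ^ 2 * V ^ 2 := ⟨_, rfl⟩
  obtain ⟨A, hA⟩ : ∃ A, A = 1 + t ^ 2 + 2 * a * x := ⟨_, rfl⟩
  rw [← hDen]
  rw [← hδ] at hd hcore
  rw [← hA] at hB2 hcore
  have hAB : A ^ 2 - B ^ 2 = (1 - a ^ 2) * (1 - t ^ 2) ^ 2 := by rw [hB2]; ring
  have hDenpos : 0 < Den := by
    have e : Den = (1 - r ^ 2) * (1 + 2 * a * x + a ^ 2 * t ^ 2) +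
        r ^ 2 * ((1 - a ^ 2) * (1 - t ^ 2)) := by
      rw [hDen, hU, hV]; ring
    have h1 : 0 < 1 + 2 * a * x + a ^ 2 * t ^ 2 := aux1 ha0 ha1 ht0 hts hre2
    have h4 : 0 ≤ (1 - a ^ 2) * (1 - t ^ 2) :=
      mul_nonneg (sub_nonneg.2 (pow_le_one₀ ha0 ha1)) (sub_nonneg.2 (pow_le_one₀ ht0 hts.le))
    rw [e]
    have := mul_pos h1r2 h1
    have := mul_nonneg (sq_nonneg r) h4
    linarith
  have hApos : 0 < A := by
    rw [hA]; exact aux2 ha0 ha1 ht0 hts hre2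
  have hF1 : Den * (1 - r ^ 2) = M ^ 2 - (r * δ) ^ 2 := by
    rw [hDen, hM2, hU, hV, hδ, mul_pow, mul_pow, hP]; ring
  have hNum : Den - ((1 - r ^ 2) * B + (1 - a ^ 2) * (r ^ 2 - t ^ 2)) = (1 - r ^ 2) * (A - B) := by
    rw [hDen, hU, hV, hA]; ring
  have hrδ0 : 0 ≤ r * δ := mul_nonneg hr0 hδ0
  have hMrδ : r * δ < M := aux3 h1r2 hDenpos hM0 hrδ0 hF1
  have hMpos : 0 < M := lt_of_le_of_lt hrδ0 hMrδ
  have hd0 : 0 ≤ d := hd ▸ div_nonneg hrδ0 hM0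
  have hd1 : d < 1 := by rw [hd, div_lt_one hMpos]; exact hMrδ
  refine ⟨hDenpos, hd0, hd1, ?_⟩
  -- main comparison
  have hmain : δ * (M - r * δ) ≤ (1 + r) ^ 2 * (A - B) := by
    have hABpos : 0 < A + B := by linarith
    have h1 := mul_le_mul_of_nonneg_left hcore h1a
    have e1 : (1 - a) * ((A + B) * (P * (M - r * δ))) = (A + B) * (δ * (M - r * δ)) := by
      rw [hδ]; ring
    have e2 : (1 - a) * ((1 + r) ^ 2 * (1 + a) * (1 - t ^ 2) ^ 2) =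
        (A + B) * ((1 + r) ^ 2 * (A - B)) := by
      have : (A + B) * ((1 + r) ^ 2 * (A - B)) = (1 + r) ^ 2 * (A ^ 2 - B ^ 2) := by ring
      rw [this, hAB]; ring
    rw [e1, e2] at h1
    exact le_of_mul_le_mul_left h1 hABpos
  obtain ⟨Num, hNumd⟩ : ∃ Num, Num = (1 - r ^ 2) * B + (1 - a ^ 2) * (r ^ 2 - t ^ 2) := ⟨_, rfl⟩
  rw [← hNumd]
  rw [← hNumd] at hNum
  have hNum0 : 0 ≤ Num := by
    rw [hNumd]
    have := mul_nonneg h1r2.le hB0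
    have := mul_nonneg (sub_nonneg.2 (pow_le_one₀ ha0 ha1 : a ^ 2 ≤ 1)) (sub_nonneg.2 hτ)
    linarith
  have hMp : 0 < M + r * δ := by linarith
  have hc : Num / Den ≤ 1 + α * (-(2 * d / (1 + d))) := by
    have e1 : 2 * d / (1 + d) = 2 * (r * δ) / (M + r * δ) := by
      rw [hd]; field_simp
    rw [e1, div_le_iff₀ hDenpos]
    have e3 : Num = Den - (1 - r ^ 2) * (A - B) := by linarith
    rw [e3]
    have key : α * (2 * (r * δ) / (M + r * δ)) * Den ≤ (1 - r ^ 2) * (A - B) := by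
      have e4 : Den = (M - r * δ) * (M + r * δ) / (1 - r ^ 2) := by
        rw [eq_div_iff h1r2.ne', hF1]; ring
      have e5 : α * (2 * (r * δ) / (M + r * δ)) * Den =
          (2 * α * r) * (δ * (M - r * δ)) / (1 - r ^ 2) := by
        rw [e4]; field_simp
      rw [e5, div_le_iff₀ h1r2]
      have h6 : 0 ≤ δ * (M - r * δ) := mul_nonneg hδ0 (by linarith)
      calc (2 * α * r) * (δ * (M - r * δ)) ≤ (1 - r) ^ 2 * (δ * (M - r * δ)) :=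
            mul_le_mul_of_nonneg_right hα h6
        _ ≤ (1 - r) ^ 2 * ((1 + r) ^ 2 * (A - B)) :=
            mul_le_mul_of_nonneg_left hmain (sq_nonneg _)
        _ = (1 - r ^ 2) * (A - B) * (1 - r ^ 2) := by ring
    linarith
  have h1d : 0 < 1 + d := by linarith
  have h1d' : 0 < 1 - d := by linarith
  have hbern := one_add_mul_self_le_rpow_one_add (s := -(2 * d / (1 + d))) (p := α)
    (by
      have : 2 * d / (1 + d) ≤ 1 := by rw [div_le_one h1d]; linarith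
      linarith) hα1
  have e7 : 1 + -(2 * d / (1 + d)) = (1 - d) / (1 + d) := by field_simp; ring
  rw [e7] at hbern
  have hpos : 0 < ((1 - d) / (1 + d)) ^ α := Real.rpow_pos_of_pos (div_pos h1d' h1d) _
  have e8 : ((1 + d) / (1 - d)) ^ α = (((1 - d) / (1 + d)) ^ α)⁻¹ := by
    rw [← Real.inv_rpow (div_pos h1d' h1d).le, inv_div]
  rw [e8, ← div_eq_mul_inv, div_le_one hpos]
  exact hc.trans hbern

end Pool.Agent.H14R3.Campbell
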