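import Pool.Agent.H14R3.Campbell.Dist
import Pool.Agent.H14R3.Campbell.Elem2

set_option autoImplicit false

namespace Pool.Agent.H14R3.Campbell

open Complex Metric Set Filter Topology ComplexConjugate

/-- Derivative of a product `z * g z` and the relation to `dslope`. -/
lemma dslope_facts {w : ℂ → ℂ} (hw : DifferentiableOn ℂ w (ball 0 1)) (hw0 : w 0 = 0)
    (hb : ∀ z ∈ ball (0:ℂ) 1, ‖w z‖ ≤ 1) :
    DifferentiableOn ℂ (dslope w 0) (ball 0 1) ∧ (∀ z ∈ ball (0:ℂ) 1, ‖dslope w 0 z‖ ≤ 1) ∧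
      (∀ z, w z = z * dslope w 0 z) ∧
      (∀ z ∈ ball (0:ℂ) 1, deriv w z = dslope w 0 z + z * deriv (dslope w 0) z) := by
  have h1 : DifferentiableOn ℂ (dslope w 0) (ball 0 1) :=
    (Complex.differentiableOn_dslope (isOpen_ball.mem_nhds (mem_ball_self one_pos))).2 hw
  have h3 : ∀ z, w z = z * dslope w 0 z := by
    intro z
    have := sub_smul_dslope w 0 z
    rw [hw0, sub_zero, sub_zero, smul_eq_mul] at this
    exact this.symm
  have hmaps : MapsTo w (ball 0 1) (closedBall (w 0) 1) := by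
    intro z hz
    rw [hw0, mem_closedBall_zero_iff]
    exact hb z hz
  refine ⟨h1, ?_, h3, ?_⟩
  · intro z hz
    have := Complex.norm_dslope_le_div_of_mapsTo_ball hw hmaps hz
    simpa using this
  · intro z hz
    have e : w = fun z => z * dslope w 0 z := funext h3
    have d1 : HasDerivAt (dslope w 0) (deriv (dslope w 0) z) z :=
      (h1.differentiableAt (isOpen_ball.mem_nhds hz)).hasDerivAt
    have d2 : HasDerivAt (fun z => z * dslope w 0 z)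
        (1 * dslope w 0 z + z * deriv (dslope w 0) z) z := (hasDerivAt_id z).mul d1
    rw [one_mul] at d2
    conv_lhs => rw [e]
    exact d2.deriv

/-- Majorization of derivatives, main computation. -/
theorem major {F w : ℂ → ℂ} {α a : ℝ} (hα1 : 1 ≤ α) (hF : DifferentiableOn ℂ F (ball 0 1))
    (hF' : ∀ z ∈ ball (0:ℂ) 1, deriv F z ≠ 0)
    (hord : ∀ z ∈ ball (0:ℂ) 1,
      ‖-conj z + (1 - (‖z‖ : ℂ) ^ 2) * deriv (deriv F) z / (2 * deriv F z)‖ ≤ α)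
    (hw : DifferentiableOn ℂ w (ball 0 1)) (hwz : ∀ z ∈ ball (0:ℂ) 1, ‖w z‖ ≤ ‖z‖)
    (ha0 : 0 ≤ a) (ha : deriv w 0 = a) {z : ℂ} (hz1 : ‖z‖ < 1)
    (hz : 2 * α * ‖z‖ ≤ (1 - ‖z‖) ^ 2) :
    ‖deriv F (w z)‖ * ‖deriv w z‖ ≤ ‖deriv F z‖ := by
  have h0mem : (0:ℂ) ∈ ball (0:ℂ) 1 := mem_ball_self one_pos
  have hzm : z ∈ ball (0:ℂ) 1 := mem_ball_zero_iff.2 hz1
  have hw0 : w 0 = 0 := by
    have := hwz 0 h0mem
    rw [norm_zero] at this
    exact norm_le_zero_iff.1 this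
  have hwb : ∀ z ∈ ball (0:ℂ) 1, ‖w z‖ ≤ 1 := fun z hz =>
    (hwz z hz).trans (mem_ball_zero_iff.1 hz).le
  obtain ⟨hφd, hφb, hφe, hφ'⟩ := dslope_facts hw hw0 hwb
  have hφ0 : dslope w 0 0 = a := by rw [dslope_same, ha]
  have ha1 : a ≤ 1 := by
    have := hφb 0 h0mem
    rw [hφ0, Complex.norm_real, Real.norm_eq_abs, abs_of_nonneg ha0] at this
    exact this
  rcases eq_or_lt_of_le ha1 with hae | halt
  · -- `w` is the identity
    have hmax : IsMaxOn (norm ∘ dslope w 0) (ball 0 1) 0 := by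
      intro y hy
      have h := hφb y hy
      change ‖dslope w 0 y‖ ≤ ‖dslope w 0 0‖
      rw [hφ0, hae]
      simpa using h
    have heq := Complex.eqOn_of_isPreconnected_of_isMaxOn_norm
      (convex_ball (0:ℂ) 1).isPreconnected isOpen_ball hφd h0mem hmax
    have hwid : ∀ y ∈ ball (0:ℂ) 1, w y = y := by
      intro y hy
      rw [hφe y, heq hy, Function.const_apply, hφ0, hae, Complex.ofReal_one, mul_one]
    have hwd : deriv w z = 1 := by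
      have : w =ᶠ[𝓝 z] id := by
        filter_upwards [isOpen_ball.mem_nhds hzm] with y hy
        exact hwid y hy
      rw [this.deriv_eq]; exact deriv_id z
    rw [hwd, hwid z hzm]
    simp
  -- nontrivial case
  have hac : ‖(a:ℂ)‖ < 1 := by
    rw [Complex.norm_real, Real.norm_eq_abs, abs_of_nonneg ha0]; exact halt
  have hac' : ‖-(a:ℂ)‖ < 1 := by rwa [norm_neg]
  obtain ⟨ψ, hψ⟩ : ∃ ψ : ℂ → ℂ, ψ = fun y => mob a (dslope w 0 y) := ⟨_, rfl⟩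
  have hψd : DifferentiableOn ℂ ψ (ball 0 1) := by
    intro y hy
    have h1 : DifferentiableAt ℂ (dslope w 0) y := hφd.differentiableAt (isOpen_ball.mem_nhds hy)
    have h2 := differentiableAt_mob hac (hφb y hy)
    rw [hψ]
    exact (h2.comp y h1).differentiableWithinAt
  have hψ0 : ψ 0 = 0 := by rw [hψ]; simp only [hφ0]; exact mob_self _
  have hψb : ∀ y ∈ ball (0:ℂ) 1, ‖ψ y‖ ≤ 1 := by
    intro y hy; rw [hψ]; exact norm_mob_le hac (hφb y hy)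
  obtain ⟨hχd, hχb, hχe, hχ'⟩ := dslope_facts hψd hψ0 hψb
  have hSP := schwarz_pick hχd hχb hz1
  obtain ⟨χ, hχ⟩ : ∃ χ, χ = dslope ψ 0 z := ⟨_, rfl⟩
  obtain ⟨χ', hχ'd⟩ : ∃ χ', χ' = deriv (dslope ψ 0) z := ⟨_, rfl⟩
  obtain ⟨s, hs⟩ : ∃ s, s = ψ z := ⟨_, rfl⟩
  obtain ⟨r, hr⟩ : ∃ r, r = ‖z‖ := ⟨_, rfl⟩
  have hr0 : 0 ≤ r := hr ▸ norm_nonneg _
  have hsz : s = z * χ := by rw [hs, hχ]; exact hχe z
  have hsn : ‖s‖ = r * ‖χ‖ := by rw [hsz, norm_mul, hr]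
  have hχ1 : ‖χ‖ ≤ 1 := hχ ▸ hχb z hzm
  have hsr : ‖s‖ ≤ r := by rw [hsn]; exact mul_le_of_le_one_right hr0 hχ1
  have hr1 : r < 1 := hr ▸ hz1
  have hs1 : ‖s‖ < 1 := lt_of_le_of_lt hsr hr1
  rw [← hχ, ← hχ'd, ← hr] at hSP
  rw [← hr] at hz
  -- φ in terms of s
  have hφs : dslope w 0 z = (s + a) / (1 + a * s) := by
    have h1 := mob_neg_mob hac (hφb z hzm)
    have h2 : mob a (dslope w 0 z) = s := by rw [hs, hψ]
    rw [h2] at h1
    rw [← h1, mob]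
    simp
  have hden : 1 + (a:ℂ) * s ≠ 0 := by
    have := den_ne hac' hs1.le
    simpa using this
  have hUpos : 0 < ‖1 + (a:ℂ) * s‖ := norm_pos_iff.2 hden
  -- derivative of φ at z
  have hφder : deriv (dslope w 0) z = ((1 - a ^ 2 : ℝ) : ℂ) / (1 + a * s) ^ 2 * (χ + z * χ') := by
    have hev : dslope w 0 =ᶠ[𝓝 z] fun y => mob (-a) (ψ y) := by
      filter_upwards [isOpen_ball.mem_nhds hzm] with y hy
      rw [hψ]
      exact (mob_neg_mob hac (hφb y hy)).symm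
    have d1 : HasDerivAt ψ (χ + z * χ') z := by
      have := (hψd.differentiableAt (isOpen_ball.mem_nhds hzm)).hasDerivAt
      rw [hχ' z hzm, ← hχ, ← hχ'd] at this
      exact this
    have d2 := hasDerivAt_mob hac' (z := ψ z) (by rw [← hs]; exact hs1.le)
    have d3 := (HasDerivAt.comp z d2 d1).deriv
    rw [hev.deriv_eq]
    have e : (fun y => mob (-a) (ψ y)) = mob (-a) ∘ ψ := rfl
    rw [e, d3, ← hs]
    congr 2
    · rw [norm_neg, Complex.norm_real, Real.norm_eq_abs, sq_abs]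
    · simp
  -- derivative of w
  have hwder : deriv w z = ((a + 2 * s + a * s ^ 2) + ((1 - a ^ 2 : ℝ) : ℂ) * (z ^ 2 * χ')) /
      (1 + a * s) ^ 2 := by
    rw [hφ' z hzm, hφs, hφder]
    have : s + z ^ 2 * χ' = z * (χ + z * χ') := by rw [hsz]; ring
    have e : z * (((1 - a ^ 2 : ℝ) : ℂ) / (1 + a * s) ^ 2 * (χ + z * χ')) =
        ((1 - a ^ 2 : ℝ) : ℂ) * (s + z ^ 2 * χ') / (1 + a * s) ^ 2 := by
      rw [this]; ring
    rw [e]
    rw [div_add_div _ _ hden (pow_ne_zero 2 hden), div_eq_div_iff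
      (mul_ne_zero hden (pow_ne_zero 2 hden)) (pow_ne_zero 2 hden)]
    push_cast
    ring
  obtain ⟨U, hU⟩ : ∃ U, U = ‖1 + (a:ℂ) * s‖ := ⟨_, rfl⟩
  obtain ⟨V, hV⟩ : ∃ V, V = ‖(a:ℂ) + s‖ := ⟨_, rfl⟩
  obtain ⟨B, hB⟩ : ∃ B, B = ‖(a : ℂ) + 2 * s + a * s ^ 2‖ := ⟨_, rfl⟩
  obtain ⟨M, hM⟩ : ∃ M, M = ‖1 + a * s - ((r ^ 2 : ℝ) : ℂ) * (a + s)‖ := ⟨_, rfl⟩
  rw [← hU] at hUpos
  have h1a2 : 0 ≤ 1 - a ^ 2 := by nlinarith
  have h1r2 : 0 < 1 - r ^ 2 := by nlinarith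
  have hwn : ‖deriv w z‖ * U ^ 2 ≤ B + (1 - a ^ 2) * (r ^ 2 * ‖χ'‖) := by
    rw [hwder, norm_div, norm_pow, ← hU, div_mul_cancel₀ _ (pow_ne_zero 2 hUpos.ne')]
    refine (norm_add_le _ _).trans ?_
    rw [norm_mul, norm_mul, norm_pow, Complex.norm_real, Real.norm_eq_abs, abs_of_nonneg h1a2,
      ← hB, ← hr]
  have hχSP : (1 - r ^ 2) * (r ^ 2 * ‖χ'‖) ≤ r ^ 2 - ‖s‖ ^ 2 := by
    rw [hsn]
    have := mul_le_mul_of_nonneg_left hSP (sq_nonneg r)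
    nlinarith [this]
  have hNum : (1 - r ^ 2) * (‖deriv w z‖ * U ^ 2) ≤
      (1 - r ^ 2) * B + (1 - a ^ 2) * (r ^ 2 - ‖s‖ ^ 2) := by
    have h1 := mul_le_mul_of_nonneg_left hwn h1r2.le
    have h2 := mul_le_mul_of_nonneg_left hχSP h1a2
    nlinarith [h1, h2]
  -- norm of w z
  have hwzn : ‖w z‖ = r * V / U := by
    rw [hφe z, hφs, norm_mul, norm_div, ← hr, ← hU, hV, add_comm s (a:ℂ)]
    ring
  have hw1 : ‖w z‖ < 1 := lt_of_le_of_lt (hwz z hzm) hz1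
  -- distance
  obtain ⟨d, hd⟩ : ∃ d, d = ‖w z - z‖ / ‖1 - conj z * w z‖ := ⟨_, rfl⟩
  have hdM : d = r * ((1 - a) * ‖1 - s‖) / M := by
    have e1 : w z - z = z * (-(((1 - a : ℝ) : ℂ) * (1 - s)) / (1 + a * s)) := by
      rw [hφe z, hφs]
      have : z * ((s + a) / (1 + a * s)) - z = z * ((s + a) / (1 + a * s) - 1) := by ring
      rw [this, div_sub_one hden]
      congr 2
      push_cast; ring
    have e2 : 1 - conj z * w z = (1 + a * s - ((r ^ 2 : ℝ) : ℂ) * (a + s)) / (1 + a * s) := by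
      have hzz : conj z * z = ((r ^ 2 : ℝ) : ℂ) := by
        rw [mul_comm, Complex.mul_conj, Complex.normSq_eq_norm_sq, hr]
      rw [hφe z, hφs, ← mul_assoc, hzz]
      rw [eq_div_iff hden, sub_mul, one_mul, mul_assoc, div_mul_cancel₀ _ hden]
      ring
    rw [hd, e1, e2, norm_mul, norm_div, norm_div, norm_neg, norm_mul, Complex.norm_real,
      Real.norm_eq_abs, abs_of_nonneg (by linarith : (0:ℝ) ≤ 1 - a), ← hM, ← hr, ← hU]
    rw [← mul_div_assoc, div_div_div_cancel_right₀ hUpos.ne']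
  obtain ⟨hDen, hd0, hd1, hel⟩ := elem_final hr1 hα1 hz ha0 ha1 hsr (hM ▸ hdM)
  rw [← hU, ← hV] at hDen hel
  rw [← hB] at hel
  have hdist := distortion hF hF' hord hz1 hw1 hd
  rw [← hr] at hdist
  obtain ⟨K, hK⟩ : ∃ K, K = ((1 + d) / (1 - d)) ^ α := ⟨_, rfl⟩
  rw [← hK] at hdist hel
  have hK0 : 0 ≤ K := by
    rw [hK]
    exact Real.rpow_nonneg (div_nonneg (by linarith) (by linarith)) _
  have hW : 1 - ‖w z‖ ^ 2 = (U ^ 2 - r ^ 2 * V ^ 2) / U ^ 2 := by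
    rw [hwzn, div_pow, mul_pow, sub_div, div_self (pow_ne_zero 2 hUpos.ne')]
  have hWpos : 0 < 1 - ‖w z‖ ^ 2 := by rw [hW]; positivity
  -- combine
  have hstep : ‖deriv w z‖ * (1 - r ^ 2) * K ≤ 1 - ‖w z‖ ^ 2 := by
    rw [hW, le_div_iff₀ (by positivity)]
    rw [div_mul_eq_mul_div, div_le_one hDen] at hel
    calc ‖deriv w z‖ * (1 - r ^ 2) * K * U ^ 2 = (1 - r ^ 2) * (‖deriv w z‖ * U ^ 2) * K := by ring
      _ ≤ ((1 - r ^ 2) * B + (1 - a ^ 2) * (r ^ 2 - ‖s‖ ^ 2)) * K :=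
        mul_le_mul_of_nonneg_right hNum hK0
      _ ≤ _ := hel
  have hfin : (‖deriv F (w z)‖ * ‖deriv w z‖) * (1 - ‖w z‖ ^ 2) ≤
      ‖deriv F z‖ * (1 - ‖w z‖ ^ 2) := by
    calc (‖deriv F (w z)‖ * ‖deriv w z‖) * (1 - ‖w z‖ ^ 2)
        = ‖deriv w z‖ * (‖deriv F (w z)‖ * (1 - ‖w z‖ ^ 2)) := by ring
      _ ≤ ‖deriv w z‖ * (‖deriv F z‖ * (1 - r ^ 2) * K) :=
        mul_le_mul_of_nonneg_left hdist (norm_nonneg _)
      _ = ‖deriv F z‖ * (‖deriv w z‖ * (1 - r ^ 2) * K) := by ring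
      _ ≤ ‖deriv F z‖ * (1 - ‖w z‖ ^ 2) := mul_le_mul_of_nonneg_left hstep (norm_nonneg _)
  exact le_of_mul_le_mul_right hfin hWpos

end Pool.Agent.H14R3.Campbell
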